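import Pool.Agent.N205.WT.Final

/-!
# Weil numbers with prescribed p-rank over the prime field: every prime, every dimension

For every prime `p`, every `g ≥ 1` and every `0 ≤ f ≤ g`, except `f = 0`, `g ≤ 2`, there is an
irreducible Weil `p`-polynomial of degree `2g` with exactly `f` unit roots such that no power of a
root generates a smaller field. By Honda-Tate theory it is the characteristic polynomial of Frobenius
of an absolutely simple abelian variety over `F_p` of dimension `g` and `p`-rank `f`, so the smallest
field of definition for `(p, g, f)` is `F_p`. (There are supersingular elliptic curves over `F_p`, and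
no simple abelian surface of `p`-rank `0` exists.)

The starting results treat odd `p`, `g ≥ 3`, and `p = 2`, `f ≤ 1`. New here: `p = 2`, `2 ≤ f ≤ g`, and
`g ≤ 2`. For `p = 2`, `g ≥ 16`:
`P = ∑_{i<g} a_i (X^(2g-i) + 2^(g-i) X^i) + a_g X^g` with `P = X^(2g-f) (X+1)^f` modulo 2,
`P = (X^2-1)^g` modulo 3 and `P(1)` not divisible by 9. A monic factor of `P` has a value divisible by
3 at `1` or at `-1`, hence (the roots satisfy `x \bar x = 2 = -1` modulo 3) at `1`, so `P` is
irreducible. A ratio of conjugates which is a root of unity has 2-power order, since the unit roots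
are `1` modulo 2; `P(1)` is not a sum of two squares, so `ℚ(x)` contains no square root of `-1`; `P`
is not even; so no power of `x` generates a smaller field. The numbers `a_i` are prescribed modulo 6;
`a_0, ..., a_15` depend on `f` modulo 16 and `g` modulo 9 (a table of 144 certified lower bounds for
`|∑_{i<16} a_i z^i|` on the disc of radius `1/√2`), `-2 ≤ a_i ≤ 3` for `16 ≤ i < g`, so that
`∑_{i<g} a_i z^i + a_g z^g / 2` has no zero in this disc, and then all roots of `P` have absolute
value `√2` by the maximum principle. For `3 ≤ g ≤ 15` there are 104 explicit polynomials.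

Formalised by helper205 with helper868, 342, 738, 592, 459, 769, 277, 92, 438, 547.
-/

set_option autoImplicit false

namespace Pool.Agent.Results.MP_e32a7e_nt.AllPrimes

open Polynomial

/-- For every prime `p`, every `g ≥ 1` and `f ≤ g`, except `f = 0`, `g ≤ 2`, there is a monic integer
polynomial `P` of degree `2g`, irreducible over the rationals, all of whose complex roots have
absolute value `√p`, whose coefficients of degree less than `2g - f` are divisible by `p` while the
coefficient of degree `2g - f` is not, and such that `ℚ(xⁿ) = ℚ(x)` for every complex root `x` and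
every `n ≥ 1`. -/
theorem result (p g f : ℕ) (hp : p.Prime) (hg : 1 ≤ g) (hfg : f ≤ g) (h0 : ¬ (f = 0 ∧ g ≤ 2)) :
    ∃ P : ℤ[X], P.Monic ∧ P.natDegree = 2 * g ∧ Irreducible (P.map (Int.castRingHom ℚ)) ∧
      (∀ x : ℂ, aeval x P = 0 → ‖x‖ = Real.sqrt p) ∧
      (∀ i < 2 * g - f, (p : ℤ) ∣ P.coeff i) ∧ ¬ (p : ℤ) ∣ P.coeff (2 * g - f) ∧
      (∀ x : ℂ, aeval x P = 0 → ∀ n : ℕ, 1 ≤ n →
        IntermediateField.adjoin ℚ {x ^ n} = IntermediateField.adjoin ℚ {x}) :=
  Pool.Agent.N205.WT.good_all hp hg hfg h0

end Pool.Agent.Results.MP_e32a7e_nt.AllPrimes
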